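import Pool.Agent.H188.UC.Defs

set_option autoImplicit false

namespace Pool.Agent.H188.UC

open Pool.Agent.H188.UB (P S_wrd S_floor)
open Pool.Agent.H188.NL (occ)

/-- the density at `y` -/
noncomputable def rho (J n : ℕ) (b : ℝ) (t : Fin (J + 1) × Fin (n + 1) → Fin n) (y : ℕ) : ℝ :=
  psi (b * ∑ k ∈ dy J n y, tau n (t k))

/-- the sum of the densities minus `x / 2` -/
noncomputable def gg (J n : ℕ) (b : ℝ) (t : Fin (J + 1) × Fin (n + 1) → Fin n) (x : ℤ) : ℝ :=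
  ∑ y ∈ Finset.range x.toNat, (rho J n b t y - 1 / 2)

theorem gg_lip (hpsi : S_psi) (J n : ℕ) (b : ℝ) (t : Fin (J + 1) × Fin (n + 1) → Fin n) (x : ℤ) :
    |gg J n b t (x + 1) - gg J n b t x| ≤ 1 / 2 := by
  unfold gg
  rcases lt_or_ge x 0 with h | h
  · have e1 : (x + 1).toNat = 0 := by omega
    have e2 : x.toNat = 0 := by omega
    rw [e1, e2, sub_self, abs_zero]
    norm_num
  · have e1 : (x + 1).toNat = x.toNat + 1 := by omega
    rw [e1, Finset.sum_range_succ, add_sub_cancel_left]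
    have h1 := hpsi.1 (b * ∑ k ∈ dy J n x.toNat, tau n (t k))
    unfold rho
    rw [abs_le]
    constructor <;> linarith [h1.1, h1.2]

/-- the difference of the two half sums -/
noncomputable def DD (J n : ℕ) (b : ℝ) (t : Fin (J + 1) × Fin (n + 1) → Fin n) (x u : ℕ) : ℝ :=
  ∑ y ∈ Finset.Ico x (x + u), rho J n b t y - ∑ y ∈ Finset.Ico (x - u) x, rho J n b t y

theorem gg_DD (J n : ℕ) (b : ℝ) (t : Fin (J + 1) × Fin (n + 1) → Fin n) (x u : ℕ) (hu : u ≤ x) :
    gg J n b t ((x : ℤ) + u) + gg J n b t ((x : ℤ) - u) - 2 * gg J n b t x = DD J n b t x u := by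
  unfold gg DD
  have e1 : ((x : ℤ) + u).toNat = x + u := by omega
  have e2 : ((x : ℤ) - u).toNat = x - u := by omega
  have e3 : ((x : ℤ)).toNat = x := by omega
  rw [e1, e2, e3]
  have k1 := Finset.sum_Ico_eq_sub (fun y => rho J n b t y - 1 / 2) (show x ≤ x + u by omega)
  have k2 := Finset.sum_Ico_eq_sub (fun y => rho J n b t y - 1 / 2) (show x - u ≤ x by omega)
  have k3 : ∑ y ∈ Finset.Ico x (x + u), (rho J n b t y - 1 / 2) =
      ∑ y ∈ Finset.Ico x (x + u), rho J n b t y - u * (1 / 2) := by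
    rw [Finset.sum_sub_distrib, Finset.sum_const, Nat.card_Ico, nsmul_eq_mul]
    congr 2
    have : x + u - x = u := by omega
    rw [this]
  have k4 : ∑ y ∈ Finset.Ico (x - u) x, (rho J n b t y - 1 / 2) =
      ∑ y ∈ Finset.Ico (x - u) x, rho J n b t y - u * (1 / 2) := by
    rw [Finset.sum_sub_distrib, Finset.sum_const, Nat.card_Ico, nsmul_eq_mul]
    congr 2
    have : x - (x - u) = u := by omega
    rw [this]
  rw [k3] at k1
  rw [k4] at k2
  linarith

theorem upper (hwrd : S_wrd) (hfloor : S_floor) (hpsi : S_psi) (hcore : S_core) (hdy : S_dy)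
    (hsum : S_sum2) (n : ℕ) (hn : 3 ≤ n) :
    ∃ w : List Bool, w.length = n ∧
      ((occ w).ncard : ℝ) ≤ 480 * n * (Real.log n) ^ ((3 : ℝ) / 2) := by
  classical
  obtain ⟨J, hJ⟩ : ∃ J, J = Nat.log 2 n := ⟨_, rfl⟩
  have hn1 : (3 : ℝ) ≤ n := by exact_mod_cast hn
  have hnpos : (0 : ℝ) < n := by linarith
  have hL1 : (1 : ℝ) ≤ ((J + 1 : ℕ) : ℝ) := by push_cast; linarith [Nat.cast_nonneg (α := ℝ) J]
  have hs0 : 1 ≤ Real.sqrt ((J + 1 : ℕ) : ℝ) := by
    rw [Real.one_le_sqrt]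
    exact hL1
  have hspos : 0 < Real.sqrt ((J + 1 : ℕ) : ℝ) := by linarith
  obtain ⟨b, hb⟩ : ∃ b : ℝ, b = 1 / Real.sqrt ((J + 1 : ℕ) : ℝ) := ⟨_, rfl⟩
  have hb0 : 0 < b := by rw [hb]; positivity
  have hb1 : b ≤ 1 := by
    rw [hb, div_le_one hspos]
    exact hs0
  have hbL : b ^ 2 * ((J + 1 : ℕ) : ℝ) ≤ 1 := by
    rw [hb, div_pow, one_pow, Real.sq_sqrt (by linarith)]
    rw [one_div, inv_mul_cancel₀ (by linarith)]
  obtain ⟨T, hT⟩ : ∃ T : ℝ, T = (n : ℝ) ^ (Fintype.card (Fin (J + 1) × Fin (n + 1))) := ⟨_, rfl⟩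
  have hTpos : 0 < T := by rw [hT]; positivity
  have hone : ∀ z ∈ P n, (((Finset.univ : Finset (Fin (J + 1) × Fin (n + 1) → Fin n)).filter
      (fun t => |DD J n b t z.1.toNat z.2.toNat| < 2)).card : ℝ) ≤
      T * (1 / (n : ℝ) + 160 * Real.sqrt ((J + 1 : ℕ) : ℝ) / (z.2 : ℝ)) := by
    intro z hz
    unfold P at hz
    rw [Finset.mem_filter, Finset.mem_product, Finset.mem_Icc, Finset.mem_Icc] at hz
    obtain ⟨⟨⟨z0, _⟩, ⟨z1, z2⟩⟩, z3, z4⟩ := hz
    obtain ⟨x, hx⟩ : ∃ x : ℕ, z.1 = x := ⟨z.1.toNat, by omega⟩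
    obtain ⟨u, hu⟩ : ∃ u : ℕ, z.2 = u := ⟨z.2.toNat, by omega⟩
    have ex : z.1.toNat = x := by omega
    have eu : z.2.toNat = u := by omega
    have hu1 : 1 ≤ u := by omega
    obtain ⟨i, d1, d2⟩ := hdy.2 n x u hu1 (by omega) (by omega)
    subst hJ
    have hYpos : 0 < ((Finset.Ico x (x + u)).filter
        (fun y => i ∈ dy (Nat.log 2 n) n y)).card := by omega
    have hc := hcore (Fin (Nat.log 2 n + 1) × Fin (n + 1)) n (Nat.log 2 n + 1) b
      (dy (Nat.log 2 n) n) (Finset.Ico x (x + u)) (Finset.Ico (x - u) x) i (by omega) hb0 hb1 hbL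
      (fun y => hdy.1 _ n y) d1 (Finset.card_pos.mp hYpos)
    rw [ex, eu]
    refine le_trans (le_of_eq ?_) (hc.trans ?_)
    · congr 1
    · rw [← hT]
      apply mul_le_mul_of_nonneg_left _ hTpos.le
      have hYr : (0 : ℝ) < ((Finset.Ico x (x + u)).filter
        (fun y => i ∈ dy (Nat.log 2 n) n y)).card := by exact_mod_cast hYpos
      have hur : (0 : ℝ) < (u : ℝ) := by exact_mod_cast hu1
      have hd2 : (u : ℝ) ≤ 4 * ((Finset.Ico x (x + u)).filter
        (fun y => i ∈ dy (Nat.log 2 n) n y)).card := by exact_mod_cast d2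
      have hz2 : (z.2 : ℝ) = u := by rw [hu]; push_cast; rfl
      rw [hz2]
      have h1 : 40 / (b * ((Finset.Ico x (x + u)).filter
          (fun y => i ∈ dy (Nat.log 2 n) n y)).card) ≤
          160 * Real.sqrt ((Nat.log 2 n + 1 : ℕ) : ℝ) / (u : ℝ) := by
        rw [div_le_div_iff₀ (mul_pos hb0 hYr) hur]
        have h2 : Real.sqrt ((Nat.log 2 n + 1 : ℕ) : ℝ) * b = 1 := by
          rw [hb, mul_one_div, div_self (ne_of_gt hspos)]
        calc 40 * (u : ℝ) ≤ 40 * (4 * ((Finset.Ico x (x + u)).filter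
              (fun y => i ∈ dy (Nat.log 2 n) n y)).card) := by linarith
          _ = 160 * (Real.sqrt ((Nat.log 2 n + 1 : ℕ) : ℝ) * b) * ((Finset.Ico x (x + u)).filter
              (fun y => i ∈ dy (Nat.log 2 n) n y)).card := by rw [h2]; ring
          _ = _ := by ring
      linarith
  have : Nonempty (Fin n) := ⟨⟨0, by omega⟩⟩
  obtain ⟨A, hA⟩ : ∃ A : ℝ, A = ∑ z ∈ P n, (1 / (n : ℝ) + 160 * Real.sqrt ((J + 1 : ℕ) : ℝ) /
    (z.2 : ℝ)) := ⟨_, rfl⟩
  have hsumt : ∑ t : Fin (J + 1) × Fin (n + 1) → Fin n,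
      (((P n).filter (fun z => |DD J n b t z.1.toNat z.2.toNat| < 2)).card : ℝ) ≤
      ∑ _t : Fin (J + 1) × Fin (n + 1) → Fin n, A := by
    have e1 : ∑ t : Fin (J + 1) × Fin (n + 1) → Fin n,
        (((P n).filter (fun z => |DD J n b t z.1.toNat z.2.toNat| < 2)).card : ℝ) =
        ∑ z ∈ P n, (((Finset.univ : Finset (Fin (J + 1) × Fin (n + 1) → Fin n)).filter
          (fun t => |DD J n b t z.1.toNat z.2.toNat| < 2)).card : ℝ) := by
      simp only [Finset.card_filter]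
      push_cast
      rw [Finset.sum_comm]
    have e2 : (Fintype.card (Fin (J + 1) × Fin (n + 1) → Fin n) : ℝ) = T := by
      rw [Fintype.card_fun, Fintype.card_fin, hT]
      push_cast
      rfl
    rw [e1, Finset.sum_const, Finset.card_univ, nsmul_eq_mul, e2, hA, Finset.mul_sum]
    exact Finset.sum_le_sum hone
  obtain ⟨t, _, ht⟩ := Finset.exists_le_of_sum_le Finset.univ_nonempty hsumt
  obtain ⟨F, hF1, hF2⟩ := hfloor (gg J n b t) (gg_lip hpsi J n b t)
  obtain ⟨w, hw, hocc⟩ := hwrd F n hF1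
  refine ⟨w, hw, ?_⟩
  have h1 : ((P n).filter (fun z => F (z.1 + z.2) + F (z.1 - z.2) = 2 * F z.1)).card ≤
      ((P n).filter (fun z => |DD J n b t z.1.toNat z.2.toNat| < 2)).card := by
    apply Finset.card_le_card
    intro z hz
    rw [Finset.mem_filter] at hz ⊢
    refine ⟨hz.1, ?_⟩
    have h2 := hF2 z.1 z.2 hz.2
    have hz1 := hz.1
    unfold P at hz1
    rw [Finset.mem_filter, Finset.mem_product, Finset.mem_Icc, Finset.mem_Icc] at hz1
    obtain ⟨⟨⟨z0, _⟩, ⟨z1, z2⟩⟩, z3, z4⟩ := hz1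
    have h3 := gg_DD J n b t z.1.toNat z.2.toNat (by omega)
    have e1 : ((z.1.toNat : ℕ) : ℤ) = z.1 := by omega
    have e2 : ((z.2.toNat : ℕ) : ℤ) = z.2 := by omega
    rw [e1, e2] at h3
    rw [← h3]
    exact h2
  have h2 : ((occ w).ncard : ℝ) ≤
      ((P n).filter (fun z => |DD J n b t z.1.toNat z.2.toNat| < 2)).card := by
    exact_mod_cast hocc.trans h1
  refine h2.trans (ht.trans ?_)
  rw [hA, hJ]
  exact hsum n hn

end Pool.Agent.H188.UC
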