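import Pool.Agent.H188.UC.Defs

set_option autoImplicit false

namespace Pool.Agent.H188.UC

theorem t_cnt : S_cnt := by
  classical
  intro M f δ hδ hf
  obtain ⟨S, hS⟩ : ∃ S : Finset (Fin M), S = (Finset.univ : Finset (Fin M)).filter
    (fun m => |f m| < 2) := ⟨_, rfl⟩
  rw [← hS]
  rcases S.eq_empty_or_nonempty with h | h
  · rw [h]
    simp only [Finset.card_empty, Nat.cast_zero]
    positivity
  · have h1 : S ⊆ Finset.Icc (S.min' h) (S.max' h) := by
      intro m hm
      rw [Finset.mem_Icc]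
      exact ⟨S.min'_le m hm, S.le_max' m hm⟩
    have h2 := Finset.card_le_card h1
    rw [Fin.card_Icc] at h2
    have hle : S.min' h ≤ S.max' h := S.min'_le _ (S.max'_mem h)
    have h3 : ((S.min' h : Fin M) : ℕ) ≤ ((S.max' h : Fin M) : ℕ) := hle
    have h4 := S.min'_mem h
    have h5 := S.max'_mem h
    have h4' : |f (S.min' h)| < 2 := by
      have : S.min' h ∈ (Finset.univ : Finset (Fin M)).filter (fun m => |f m| < 2) := by
        rw [← hS]; exact h4
      exact (Finset.mem_filter.mp this).2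
    have h5' : |f (S.max' h)| < 2 := by
      have : S.max' h ∈ (Finset.univ : Finset (Fin M)).filter (fun m => |f m| < 2) := by
        rw [← hS]; exact h5
      exact (Finset.mem_filter.mp this).2
    have h6 := hf _ _ hle
    have h7 : δ * ((((S.max' h : Fin M) : ℕ) : ℝ) - (((S.min' h : Fin M) : ℕ) : ℝ)) ≤ 4 := by
      have a1 := abs_lt.mp h4'
      have a2 := abs_lt.mp h5'
      linarith [a1.1, a2.2]
    have h8 : (((S.max' h : Fin M) : ℕ) : ℝ) - (((S.min' h : Fin M) : ℕ) : ℝ) ≤ 4 / δ := by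
      rw [le_div_iff₀ hδ]
      linarith
    have h9 : (S.card : ℝ) + (((S.min' h : Fin M) : ℕ) : ℝ) ≤
        (((S.max' h : Fin M) : ℕ) : ℝ) + 1 := by
      have : S.card + ((S.min' h : Fin M) : ℕ) ≤ ((S.max' h : Fin M) : ℕ) + 1 := by omega
      exact_mod_cast this
    linarith

end Pool.Agent.H188.UC
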