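import Pool.Agent.H188.UC.Defs

set_option autoImplicit false

namespace Pool.Agent.H188.UC

theorem abs_tau {M m : ℕ} (hm : m < M) : |tau M m| ≤ 1 := by
  have hM : (0 : ℝ) < M := by
    have : 0 < M := by omega
    exact_mod_cast this
  have h1 : (m : ℝ) + 1 ≤ M := by exact_mod_cast hm
  have h0 : (0 : ℝ) ≤ m := Nat.cast_nonneg m
  unfold tau
  rw [abs_le]
  constructor
  · rw [le_div_iff₀ hM]
    linarith
  · rw [div_le_iff₀ hM]
    linarith

open Classical in
theorem core_fibre (h1 : S_psi) (h2 : S_cnt) {ι : Type} [Fintype ι] [DecidableEq ι] {M : ℕ}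
    {b : ℝ} (A : ℕ → Finset ι) (X1 X2 : Finset ℕ) (i : ι) (hM : 1 ≤ M) (hb : 0 < b) (hb1 : b ≤ 1)
    (hX2 : ∀ y ∈ X2, i ∉ A y) (hY : (X1.filter (fun y => i ∈ A y)).Nonempty) (t : ι → Fin M) :
    (((Finset.univ : Finset (Fin M)).filter (fun m =>
      |∑ y ∈ X1, psi (b * ∑ k ∈ A y, tau M (Function.update t i m k)) -
        ∑ y ∈ X2, psi (b * ∑ k ∈ A y, tau M (Function.update t i m k))| < 2)).card : ℝ) ≤
    4 * M / (b * ((X1.filter (fun y => i ∈ A y)).card : ℝ) ^ 2) *
      ∑ y ∈ X1.filter (fun y => i ∈ A y), (8 + 2 * (b * ∑ k ∈ (A y).erase i, tau M (t k)) ^ 2)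
      + 1 := by
  obtain ⟨Y, hYd⟩ : ∃ Y, Y = X1.filter (fun y => i ∈ A y) := ⟨_, rfl⟩
  rw [← hYd] at hY ⊢
  have hMr : (0 : ℝ) < M := by
    have : 0 < M := by omega
    exact_mod_cast this
  obtain ⟨c, hc⟩ : ∃ c : ℕ → ℝ, c = fun y => |b * ∑ k ∈ (A y).erase i, tau M (t k)| := ⟨_, rfl⟩
  have hc0 : ∀ y, 0 ≤ c y := by intro y; rw [hc]; exact abs_nonneg _
  obtain ⟨W, hW⟩ : ∃ W : ℝ, W = ∑ y ∈ Y, 1 / (2 + c y) ^ 2 := ⟨_, rfl⟩
  have hWpos : 0 < W := by
    rw [hW]
    exact Finset.sum_pos (fun y _ => by have := hc0 y; positivity) hY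
  have hYpos : (0 : ℝ) < (Y.card : ℝ) := by exact_mod_cast Finset.card_pos.mpr hY
  -- arguments
  have harg1 : ∀ y (m : Fin M), i ∈ A y → ∑ k ∈ A y, tau M (Function.update t i m k) =
      tau M m + ∑ k ∈ (A y).erase i, tau M (t k) := by
    intro y m hi
    rw [← Finset.add_sum_erase _ _ hi]
    congr 1
    · simp
    · refine Finset.sum_congr rfl fun k hk => ?_
      rw [Function.update_of_ne (Finset.ne_of_mem_erase hk)]
  have harg2 : ∀ y (m : Fin M), i ∉ A y → ∑ k ∈ A y, tau M (Function.update t i m k) =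
      ∑ k ∈ A y, tau M (t k) := by
    intro y m hi
    refine Finset.sum_congr rfl fun k hk => ?_
    rw [Function.update_of_ne]
    rintro rfl
    exact hi hk
  have hmain := h2 M (fun m => ∑ y ∈ X1, psi (b * ∑ k ∈ A y, tau M (Function.update t i m k)) -
      ∑ y ∈ X2, psi (b * ∑ k ∈ A y, tau M (Function.update t i m k))) (b / M * W)
    (by positivity) (by
      intro m m' hmm
      have hmm' : ((m : ℕ) : ℝ) ≤ ((m' : ℕ) : ℝ) := by exact_mod_cast hmm
      have e2 : ∑ y ∈ X2, psi (b * ∑ k ∈ A y, tau M (Function.update t i m' k)) =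
          ∑ y ∈ X2, psi (b * ∑ k ∈ A y, tau M (Function.update t i m k)) := by
        refine Finset.sum_congr rfl fun y hy => ?_
        rw [harg2 y m' (hX2 y hy), harg2 y m (hX2 y hy)]
      rw [e2]
      have e3 : b / M * W * (((m' : ℕ) : ℝ) - ((m : ℕ) : ℝ)) =
          ∑ y ∈ X1, (if i ∈ A y then b / M * (((m' : ℕ) : ℝ) - ((m : ℕ) : ℝ)) / (2 + c y) ^ 2
            else 0) := by
        rw [← Finset.sum_filter, ← hYd, hW, Finset.mul_sum, Finset.sum_mul]
        refine Finset.sum_congr rfl fun y _ => ?_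
        ring
      rw [e3]
      have e4 : ∀ y ∈ X1, (if i ∈ A y then b / M * (((m' : ℕ) : ℝ) - ((m : ℕ) : ℝ)) / (2 + c y) ^ 2
            else 0) ≤ psi (b * ∑ k ∈ A y, tau M (Function.update t i m' k)) -
              psi (b * ∑ k ∈ A y, tau M (Function.update t i m k)) := by
        intro y _
        split_ifs with hi
        · rw [harg1 y m' hi, harg1 y m hi]
          have t1 := abs_tau m.2
          have t2 := abs_tau m'.2
          have hdt : tau M m' - tau M m = 2 * (((m' : ℕ) : ℝ) - ((m : ℕ) : ℝ)) / M := by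
            unfold tau
            ring
          have k1 : ∀ s : ℝ, |s| ≤ 1 → |b * (s + ∑ k ∈ (A y).erase i, tau M (t k))| ≤ c y + 1 := by
            intro s hs
            rw [mul_add]
            refine (abs_add_le _ _).trans ?_
            rw [abs_mul b s, abs_of_pos hb, hc]
            have : b * |s| ≤ 1 * 1 := mul_le_mul hb1 hs (abs_nonneg _) (by norm_num)
            simp only
            linarith
          have hz : b * (tau M m' + ∑ k ∈ (A y).erase i, tau M (t k)) -
              b * (tau M m + ∑ k ∈ (A y).erase i, tau M (t k)) =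
              b / M * (2 * (((m' : ℕ) : ℝ) - ((m : ℕ) : ℝ))) := by
            have : b * (tau M m' + ∑ k ∈ (A y).erase i, tau M (t k)) -
              b * (tau M m + ∑ k ∈ (A y).erase i, tau M (t k)) = b * (tau M m' - tau M m) := by ring
            rw [this, hdt]
            ring
          have hzle : b * (tau M m + ∑ k ∈ (A y).erase i, tau M (t k)) ≤
              b * (tau M m' + ∑ k ∈ (A y).erase i, tau M (t k)) := by
            have : 0 ≤ b / M * (2 * (((m' : ℕ) : ℝ) - ((m : ℕ) : ℝ))) := by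
              apply mul_nonneg (by positivity)
              linarith
            linarith
          have hp := h1.2 _ _ (c y) hzle (hc0 y) (k1 _ t1) (k1 _ t2)
          rw [hz] at hp
          refine le_trans (le_of_eq ?_) hp
          have h2c : (0 : ℝ) < (2 + c y) ^ 2 := by have := hc0 y; positivity
          field_simp
        · rw [harg2 y m' hi, harg2 y m hi, sub_self]
      refine (Finset.sum_le_sum e4).trans (le_of_eq ?_)
      rw [Finset.sum_sub_distrib]
      ring)
  refine hmain.trans ?_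
  -- Cauchy-Schwarz
  have hCS : (Y.card : ℝ) ^ 2 ≤ (∑ y ∈ Y, (2 + c y) ^ 2) * W := by
    have h := Finset.sum_mul_sq_le_sq_mul_sq Y (fun y => 2 + c y) (fun y => 1 / (2 + c y))
    have e1 : ∑ y ∈ Y, (2 + c y) * (1 / (2 + c y)) = Y.card := by
      rw [Finset.sum_congr rfl (g := fun _ => (1 : ℝ))]
      · simp
      · intro y _
        have : 2 + c y ≠ 0 := by have := hc0 y; positivity
        field_simp
    rw [e1] at h
    refine h.trans (le_of_eq ?_)
    rw [hW]
    congr 1
    refine Finset.sum_congr rfl fun y _ => ?_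
    rw [div_pow, one_pow]
  have hle : ∑ y ∈ Y, (2 + c y) ^ 2 ≤
      ∑ y ∈ Y, (8 + 2 * (b * ∑ k ∈ (A y).erase i, tau M (t k)) ^ 2) := by
    refine Finset.sum_le_sum fun y _ => ?_
    have : (b * ∑ k ∈ (A y).erase i, tau M (t k)) ^ 2 = c y ^ 2 := by
      rw [hc]
      simp only [sq_abs]
    rw [this]
    nlinarith [sq_nonneg (c y - 2)]
  obtain ⟨V, hV⟩ : ∃ V : ℝ, V = ∑ y ∈ Y, (8 + 2 * (b * ∑ k ∈ (A y).erase i, tau M (t k)) ^ 2) :=
    ⟨_, rfl⟩
  rw [← hV] at hle ⊢
  have hCS2 : (Y.card : ℝ) ^ 2 ≤ V * W := hCS.trans (mul_le_mul_of_nonneg_right hle hWpos.le)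
  have h4 : 4 / (b / M * W) ≤ 4 * M / (b * (Y.card : ℝ) ^ 2) * V := by
    have hd1 : 4 / (b / M * W) = 4 * M / (b * W) := by field_simp
    have hd2 : 4 * M / (b * (Y.card : ℝ) ^ 2) * V = 4 * M * V / (b * (Y.card : ℝ) ^ 2) := by ring
    rw [hd1, hd2, div_le_div_iff₀ (mul_pos hb hWpos) (mul_pos hb (pow_pos hYpos 2))]
    have h5 := mul_le_mul_of_nonneg_left hCS2 (show 0 ≤ 4 * (M : ℝ) * b by positivity)
    linarith
  linarith

theorem t_core (h1 : S_psi) (h2 : S_cnt) (h3 : S_mom) : S_core := by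
  classical
  intro ι _ _ M L b A X1 X2 i hM hb hb1 hbL hA hX2 hY
  obtain ⟨Y, hYd⟩ : ∃ Y, Y = X1.filter (fun y => i ∈ A y) := ⟨_, rfl⟩
  have hYpos : (0 : ℝ) < (Y.card : ℝ) := by
    rw [hYd]
    exact_mod_cast Finset.card_pos.mpr hY
  have hMr : (0 : ℝ) < M := by
    have : 0 < M := by omega
    exact_mod_cast this
  obtain ⟨T, hT⟩ : ∃ T : ℝ, T = (M : ℝ) ^ (Fintype.card ι) := ⟨_, rfl⟩
  have hTpos : 0 < T := by rw [hT]; positivity
  obtain ⟨ind, hind⟩ : ∃ ind : (ι → Fin M) → ℝ, ind = fun t =>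
    if |∑ y ∈ X1, psi (b * ∑ k ∈ A y, tau M (t k)) -
        ∑ y ∈ X2, psi (b * ∑ k ∈ A y, tau M (t k))| < 2 then 1 else 0 := ⟨_, rfl⟩
  have e1 : (((Finset.univ : Finset (ι → Fin M)).filter (fun t =>
      |∑ y ∈ X1, psi (b * ∑ k ∈ A y, tau M (t k)) -
        ∑ y ∈ X2, psi (b * ∑ k ∈ A y, tau M (t k))| < 2)).card : ℝ) = ∑ t, ind t := by
    rw [hind, Finset.card_filter]
    push_cast
    rfl
  have e2 : (∑ t, ind t) * M = ∑ p : (ι → Fin M) × Fin M, ind p.1 := by
    rw [Fintype.sum_prod_type, Finset.sum_mul]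
    refine Finset.sum_congr rfl fun t _ => ?_
    simp [mul_comm]
  have e3 : ∑ p : (ι → Fin M) × Fin M, ind p.1 =
      ∑ p : (ι → Fin M) × Fin M, ind (Function.update p.1 i p.2) := by
    refine Finset.sum_bij' (fun p _ => (Function.update p.1 i p.2, p.1 i))
      (fun p _ => (Function.update p.1 i p.2, p.1 i)) ?_ ?_ ?_ ?_ ?_
    · intro p _
      exact Finset.mem_univ _
    · intro p _
      exact Finset.mem_univ _
    · intro p _
      simp
    · intro p _
      simp
    · intro p _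
      simp
  have e4 : ∀ t ∈ (Finset.univ : Finset (ι → Fin M)),
      ∑ m : Fin M, ind (Function.update t i m) ≤
      4 * M / (b * (Y.card : ℝ) ^ 2) *
      ∑ y ∈ Y, (8 + 2 * (b * ∑ k ∈ (A y).erase i, tau M (t k)) ^ 2) + 1 := by
    intro t _
    have h := core_fibre h1 h2 A X1 X2 i hM hb hb1 hX2 hY t
    rw [← hYd] at h
    refine le_trans (le_of_eq ?_) h
    rw [hind, Finset.card_filter]
    push_cast
    rfl
  have e5 : (∑ t, ind t) * M ≤ T * (40 * M / (b * Y.card) + 1) := by
    rw [e2, e3, Fintype.sum_prod_type]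
    refine (Finset.sum_le_sum e4).trans ?_
    rw [Finset.sum_add_distrib, ← Finset.mul_sum, Finset.sum_comm]
    have e6 : ∀ y ∈ Y, ∑ t : ι → Fin M, (8 + 2 * (b * ∑ k ∈ (A y).erase i, tau M (t k)) ^ 2) ≤
        10 * T := by
      intro y _
      rw [Finset.sum_add_distrib, Finset.sum_const, Finset.card_univ, nsmul_eq_mul,
        ← Finset.mul_sum]
      have e7 : (Fintype.card (ι → Fin M) : ℝ) = T := by
        rw [Fintype.card_fun, Fintype.card_fin, hT]
        push_cast
        rfl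
      have e8 : ∑ t : ι → Fin M, (b * ∑ k ∈ (A y).erase i, tau M (t k)) ^ 2 ≤ T := by
        have e9 : ∑ t : ι → Fin M, (b * ∑ k ∈ (A y).erase i, tau M (t k)) ^ 2 =
            b ^ 2 * ∑ t : ι → Fin M, (∑ k ∈ (A y).erase i, tau M (t k)) ^ 2 := by
          rw [Finset.mul_sum]
          refine Finset.sum_congr rfl fun t _ => ?_
          ring
        rw [e9]
        have e10 := h3 ι M ((A y).erase i) hM
        rw [← hT] at e10
        have e11 : (((A y).erase i).card : ℝ) ≤ L := by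
          have : ((A y).erase i).card ≤ L := (Finset.card_erase_le).trans (hA y)
          exact_mod_cast this
        calc b ^ 2 * ∑ t : ι → Fin M, (∑ k ∈ (A y).erase i, tau M (t k)) ^ 2
            ≤ b ^ 2 * (((A y).erase i).card * T) :=
              mul_le_mul_of_nonneg_left e10 (by positivity)
          _ ≤ b ^ 2 * (L * T) := by
              apply mul_le_mul_of_nonneg_left _ (by positivity)
              exact mul_le_mul_of_nonneg_right e11 hTpos.le
          _ = (b ^ 2 * L) * T := by ring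
          _ ≤ 1 * T := mul_le_mul_of_nonneg_right hbL hTpos.le
          _ = T := one_mul T
      rw [e7]
      linarith
    have e12 := Finset.sum_le_sum e6
    rw [Finset.sum_const, nsmul_eq_mul] at e12
    have e13 : ∑ _t : ι → Fin M, (1 : ℝ) = T := by
      rw [Finset.sum_const, Finset.card_univ, nsmul_eq_mul, mul_one, Fintype.card_fun,
        Fintype.card_fin, hT]
      push_cast
      rfl
    rw [e13]
    have e14 := mul_le_mul_of_nonneg_left e12
      (show 0 ≤ 4 * (M : ℝ) / (b * (Y.card : ℝ) ^ 2) by positivity)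
    have e15 : 4 * (M : ℝ) / (b * (Y.card : ℝ) ^ 2) * (Y.card * (10 * T)) =
        T * (40 * M / (b * Y.card)) := by
      field_simp
      ring
    rw [e15] at e14
    linarith
  rw [e1, ← hT, ← hYd]
  have e16 : T * (1 / (M : ℝ) + 40 / (b * Y.card)) * M = T * (40 * M / (b * Y.card) + 1) := by
    field_simp
    ring
  have e17 : (∑ t, ind t) * M ≤ T * (1 / (M : ℝ) + 40 / (b * Y.card)) * M := by
    rw [e16]
    exact e5
  exact le_of_mul_le_mul_right e17 hMr

end Pool.Agent.H188.UC
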