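import Pool.Agent.H188.UB.Defs

/-!
# Upper bound `C n (log n) ^ (3 / 2)` for the number of occurrences of abelian squares
-/

set_option autoImplicit false

namespace Pool.Agent.H188.UC

open Pool.Agent.H188.UB (P)

/-- a bounded increasing function -/
noncomputable def psi (z : ℝ) : ℝ := 1 / 2 + z / (2 * (1 + |z|))

/-- symmetric values in `(-1, 1)` -/
noncomputable def tau (M m : ℕ) : ℝ := (2 * (m : ℝ) - ((M : ℝ) - 1)) / M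

/-- the dyadic intervals containing `y` -/
def dy (J n y : ℕ) : Finset (Fin (J + 1) × Fin (n + 1)) :=
  Finset.univ.filter (fun p => (p.2 : ℕ) = y / 2 ^ (p.1 : ℕ))

/-- V1 -/
def S_psi : Prop := (∀ z, 0 ≤ psi z ∧ psi z ≤ 1) ∧ ∀ z z' c : ℝ, z ≤ z' → 0 ≤ c → |z| ≤ c + 1 →
  |z'| ≤ c + 1 → (z' - z) / (2 * (2 + c) ^ 2) ≤ psi z' - psi z

open Classical in
/-- V2 -/
def S_cnt : Prop := ∀ (M : ℕ) (f : Fin M → ℝ) (δ : ℝ), 0 < δ →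
  (∀ m m' : Fin M, m ≤ m' → δ * (((m' : ℕ) : ℝ) - ((m : ℕ) : ℝ)) ≤ f m' - f m) →
  (((Finset.univ : Finset (Fin M)).filter (fun m => |f m| < 2)).card : ℝ) ≤ 4 / δ + 1

/-- V3 -/
def S_mom : Prop := ∀ (ι : Type) [Fintype ι] [DecidableEq ι] (M : ℕ) (A : Finset ι), 1 ≤ M →
  ∑ t : ι → Fin M, (∑ i ∈ A, tau M (t i)) ^ 2 ≤ A.card * (M : ℝ) ^ (Fintype.card ι)

open Classical in
/-- V4 -/
def S_core : Prop := ∀ (ι : Type) [Fintype ι] [DecidableEq ι] (M L : ℕ) (b : ℝ)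
  (A : ℕ → Finset ι) (X1 X2 : Finset ℕ) (i : ι), 1 ≤ M → 0 < b → b ≤ 1 → b ^ 2 * L ≤ 1 →
  (∀ y, (A y).card ≤ L) → (∀ y ∈ X2, i ∉ A y) → (X1.filter (fun y => i ∈ A y)).Nonempty →
  (((Finset.univ : Finset (ι → Fin M)).filter (fun t =>
      |∑ y ∈ X1, psi (b * ∑ k ∈ A y, tau M (t k)) -
        ∑ y ∈ X2, psi (b * ∑ k ∈ A y, tau M (t k))| < 2)).card : ℝ) ≤
    (M : ℝ) ^ (Fintype.card ι) * (1 / M + 40 / (b * (X1.filter (fun y => i ∈ A y)).card))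

/-- V5 -/
def S_dy : Prop := (∀ J n y : ℕ, (dy J n y).card ≤ J + 1) ∧
  ∀ n x u : ℕ, 1 ≤ u → u ≤ x → x + u ≤ n → ∃ i : Fin (Nat.log 2 n + 1) × Fin (n + 1),
    (∀ y ∈ Finset.Ico (x - u) x, i ∉ dy (Nat.log 2 n) n y) ∧
    u ≤ 4 * ((Finset.Ico x (x + u)).filter (fun y => i ∈ dy (Nat.log 2 n) n y)).card

/-- V6 -/
def S_sum2 : Prop := ∀ n : ℕ, 3 ≤ n →
  ∑ z ∈ P n, (1 / (n : ℝ) + 160 * Real.sqrt ((Nat.log 2 n + 1 : ℕ) : ℝ) / (z.2 : ℝ)) ≤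
    480 * n * (Real.log n) ^ ((3 : ℝ) / 2)

end Pool.Agent.H188.UC
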