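import Pool.Agent.H188.UC.Defs

set_option autoImplicit false

namespace Pool.Agent.H188.UC

theorem dy_card (J n y : ℕ) : (dy J n y).card ≤ J + 1 := by
  have h : (dy J n y).card ≤ (Finset.univ : Finset (Fin (J + 1))).card := by
    apply Finset.card_le_card_of_injOn Prod.fst
    · intro p _
      exact Finset.mem_coe.2 (Finset.mem_univ _)
    · intro p hp p' hp' he
      unfold dy at hp hp'
      rw [Finset.mem_coe, Finset.mem_filter] at hp hp'
      apply Prod.ext
      · exact he
      · apply Fin.ext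
        rw [hp.2, hp'.2, he]
  rw [Finset.card_univ, Fintype.card_fin] at h
  exact h

theorem t_dy : S_dy := by
  refine ⟨dy_card, ?_⟩
  intro n x u hu hux hxu
  obtain ⟨j, hj⟩ : ∃ j, Nat.log 2 (u + 1) = j + 1 := by
    have h1 : 1 ≤ Nat.log 2 (u + 1) := Nat.le_log_of_pow_le (by norm_num) (by omega)
    exact ⟨Nat.log 2 (u + 1) - 1, by omega⟩
  have h1 : 2 ^ (j + 1) ≤ u + 1 := by
    rw [← hj]
    exact Nat.pow_log_le_self 2 (by omega)
  have h2 : u + 1 < 2 ^ (j + 2) := by
    have h3 := Nat.lt_pow_succ_log_self (b := 2) (by norm_num) (u + 1)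
    rw [hj] at h3
    exact h3
  have hpos : 0 < 2 ^ j := by positivity
  have e1 : 2 ^ (j + 1) = 2 * 2 ^ j := by rw [pow_succ]; ring
  have e2 : 2 ^ (j + 2) = 4 * 2 ^ j := by rw [pow_succ, pow_succ]; ring
  rw [e1] at h1
  rw [e2] at h2
  set q := 2 ^ j with hq
  set k := (x + q - 1) / q with hk
  have k1 : k * q ≤ x + q - 1 := Nat.div_mul_le_self _ _
  have k2 : x ≤ k * q := by
    have h3 : x + q - 1 < (k + 1) * q := by
      rw [mul_comm]
      exact Nat.lt_mul_div_succ (x + q - 1) hpos
    rw [add_mul, one_mul] at h3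
    omega
  have k3 : k ≤ k * q := Nat.le_mul_of_pos_right k hpos
  have hkn : k ≤ n := by omega
  have hjn : j ≤ Nat.log 2 n := by
    apply Nat.le_log_of_pow_le (by norm_num)
    rw [← hq]
    omega
  have k4 : (k + 1) * q ≤ x + u := by
    rw [add_mul, one_mul]
    omega
  refine ⟨(⟨j, by omega⟩, ⟨k, by omega⟩), ?_, ?_⟩
  · intro y hy hmem
    rw [Finset.mem_Ico] at hy
    unfold dy at hmem
    rw [Finset.mem_filter] at hmem
    have h3 : k = y / q := hmem.2
    have h4 : y / q * q ≤ y := Nat.div_mul_le_self _ _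
    rw [← h3] at h4
    omega
  · have h3 : Finset.Ico (k * q) ((k + 1) * q) ⊆ (Finset.Ico x (x + u)).filter
        (fun y => ((⟨j, by omega⟩, ⟨k, by omega⟩) : Fin (Nat.log 2 n + 1) × Fin (n + 1)) ∈
          dy (Nat.log 2 n) n y) := by
      intro y hy
      rw [Finset.mem_Ico] at hy
      rw [Finset.mem_filter, Finset.mem_Ico]
      refine ⟨⟨by omega, by omega⟩, ?_⟩
      unfold dy
      rw [Finset.mem_filter]
      refine ⟨Finset.mem_univ _, ?_⟩
      change k = y / q
      exact (Nat.div_eq_of_lt_le hy.1 hy.2).symm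
    have h4 := Finset.card_le_card h3
    rw [Nat.card_Ico, add_mul, one_mul, Nat.add_sub_cancel_left] at h4
    omega

end Pool.Agent.H188.UC
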