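import Pool.Agent.H188.UC.Defs

/-!
# V3: the second moment (helper806)
-/

set_option autoImplicit false

namespace Pool.Agent.H188.UC

namespace Mom

theorem tau_rev {M : ℕ} (m : Fin M) : tau M ((Fin.rev m : Fin M) : ℕ) = -tau M (m : ℕ) := by
  have hm : (m : ℕ) + 1 ≤ M := m.2
  unfold tau
  rw [Fin.val_rev, Nat.cast_sub hm]
  push_cast
  ring

theorem tau_sq {M : ℕ} (m : Fin M) : tau M (m : ℕ) ^ 2 ≤ 1 := by
  have hm : ((m : ℕ) : ℝ) + 1 ≤ M := by exact_mod_cast m.2
  have hm0 : (0 : ℝ) ≤ ((m : ℕ) : ℝ) := Nat.cast_nonneg _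
  have hM : (0 : ℝ) < M := by linarith
  unfold tau
  rw [div_pow, div_le_one (by positivity)]
  exact sq_le_sq' (by linarith) (by linarith)

/-- flip one coordinate -/
def fl {ι : Type} [DecidableEq ι] {M : ℕ} (i : ι) (t : ι → Fin M) : ι → Fin M :=
  Function.update t i (Fin.rev (t i))

theorem fl_invol {ι : Type} [DecidableEq ι] {M : ℕ} (i : ι) :
    Function.Involutive (fl (M := M) i) := by
  intro t
  funext j
  unfold fl
  by_cases h : j = i
  · subst h
    simp
  · simp [Function.update_of_ne h]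

theorem off {ι : Type} [Fintype ι] [DecidableEq ι] (M : ℕ) {i j : ι} (h : j ≠ i) :
    ∑ t : ι → Fin M, tau M (t i) * tau M (t j) = 0 := by
  have h1 : ∑ t : ι → Fin M, tau M (t i) * tau M (t j) =
      ∑ t : ι → Fin M, -(tau M (t i) * tau M (t j)) := by
    rw [← Equiv.sum_comp (Function.Involutive.toPerm (fl (M := M) i) (fl_invol i))
      (fun t => tau M (t i) * tau M (t j))]
    refine Finset.sum_congr rfl fun t _ => ?_
    have h2 : Function.Involutive.toPerm (fl (M := M) i) (fl_invol i) t = fl i t := rfl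
    have h3 : fl i t i = Fin.rev (t i) := by unfold fl; simp
    have h4 : fl i t j = t j := by unfold fl; exact Function.update_of_ne h _ _
    rw [h2, h3, h4, tau_rev]
    ring
  rw [Finset.sum_neg_distrib] at h1
  linarith

theorem diag {ι : Type} [Fintype ι] [DecidableEq ι] (M : ℕ) (i : ι) :
    ∑ t : ι → Fin M, tau M (t i) * tau M (t i) ≤ (M : ℝ) ^ (Fintype.card ι) := by
  have h1 : ∑ t : ι → Fin M, tau M (t i) * tau M (t i) ≤ ∑ _t : ι → Fin M, (1 : ℝ) := by
    refine Finset.sum_le_sum fun t _ => ?_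
    have := tau_sq (t i)
    nlinarith
  refine h1.trans (le_of_eq ?_)
  rw [Finset.sum_const, Finset.card_univ, Fintype.card_fun, Fintype.card_fin, nsmul_eq_mul,
    mul_one]
  push_cast
  rfl

end Mom

theorem t_mom : S_mom := by
  intro ι _ _ M A _
  have h1 : ∀ t : ι → Fin M, (∑ i ∈ A, tau M (t i)) ^ 2 =
      ∑ i ∈ A, ∑ j ∈ A, tau M (t i) * tau M (t j) := by
    intro t
    rw [sq, Finset.sum_mul_sum]
  simp only [h1]
  rw [Finset.sum_comm]
  have h2 : ∀ i ∈ A, ∑ t : ι → Fin M, ∑ j ∈ A, tau M (t i) * tau M (t j) ≤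
      (M : ℝ) ^ (Fintype.card ι) := by
    intro i hi
    rw [Finset.sum_comm, Finset.sum_eq_single_of_mem i hi fun j _ hj => Mom.off M hj]
    exact Mom.diag M i
  refine (Finset.sum_le_sum h2).trans (le_of_eq ?_)
  rw [Finset.sum_const, nsmul_eq_mul]

end Pool.Agent.H188.UC
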