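import Pool.Agent.H188.UC.Defs

/-!
# V1: the function `psi`
-/

set_option autoImplicit false

namespace Pool.Agent.H188.UC

theorem psi_num {z z' : ℝ} (h : z ≤ z') : z' - z ≤ z' * (1 + |z|) - z * (1 + |z'|) := by
  rcases le_total 0 z with hz | hz
  · rw [abs_of_nonneg hz, abs_of_nonneg (hz.trans h)]
    linarith [mul_comm z z']
  · rcases le_total 0 z' with hz' | hz'
    · rw [abs_of_nonpos hz, abs_of_nonneg hz']
      nlinarith [mul_nonneg (neg_nonneg.mpr hz) hz']
    · rw [abs_of_nonpos hz, abs_of_nonpos hz']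
      linarith [mul_comm z z']

theorem psi_sub (z z' : ℝ) : psi z' - psi z =
    (z' * (1 + |z|) - z * (1 + |z'|)) / (2 * ((1 + |z|) * (1 + |z'|))) := by
  have h1 : (0 : ℝ) < 1 + |z| := by positivity
  have h2 : (0 : ℝ) < 1 + |z'| := by positivity
  unfold psi
  field_simp
  ring

theorem t_psi : S_psi := by
  refine ⟨fun z => ?_, fun z z' c h hc hz hz' => ?_⟩
  · have h1 : (0 : ℝ) < 2 * (1 + |z|) := by positivity
    have h2 := neg_abs_le z
    have h3 := le_abs_self z
    have h4 : -(1 / 2) ≤ z / (2 * (1 + |z|)) := by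
      rw [le_div_iff₀ h1]
      linarith
    have h5 : z / (2 * (1 + |z|)) ≤ 1 / 2 := by
      rw [div_le_iff₀ h1]
      linarith
    unfold psi
    constructor
    · linarith
    · linarith
  · rw [psi_sub]
    have h1 : (0 : ℝ) < 1 + |z| := by positivity
    have h2 : (0 : ℝ) < 1 + |z'| := by positivity
    have h3 : (1 + |z|) * (1 + |z'|) ≤ (2 + c) ^ 2 := by
      rw [pow_two]
      exact mul_le_mul (by linarith) (by linarith) h2.le (by linarith)
    exact div_le_div₀ (by linarith [psi_num h]) (psi_num h) (by positivity) (by linarith)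

end Pool.Agent.H188.UC
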