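import Pool.Agent.H188.UC.Defs

/-!
# V6: the sum (helper977 for helper188)
-/

set_option autoImplicit false

namespace Pool.Agent.H188.UC

open Pool.Agent.H188.UB (P)

namespace SumN2

theorem sum_int (n : ℕ) (f : ℤ → ℝ) :
    ∑ u ∈ Finset.Icc (1 : ℤ) n, f u = ∑ k ∈ Finset.Icc 1 n, f (k : ℤ) := by
  refine Finset.sum_nbij' Int.toNat (fun k => (k : ℤ)) ?_ ?_ ?_ ?_ ?_
  · intro a ha
    rw [Finset.mem_Icc] at ha ⊢
    omega
  · intro a ha
    rw [Finset.mem_Icc] at ha ⊢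
    omega
  · intro a ha
    rw [Finset.mem_Icc] at ha
    omega
  · intro a _
    simp
  · intro a ha
    rw [Finset.mem_Icc] at ha
    have : ((a.toNat : ℕ) : ℤ) = a := by omega
    rw [this]

theorem harm (n : ℕ) : ∑ u ∈ Finset.Icc (1 : ℤ) n, 1 / (u : ℝ) ≤ 1 + Real.log n := by
  rw [sum_int n fun u => 1 / (u : ℝ)]
  have h := harmonic_le_one_add_log n
  rw [harmonic_eq_sum_Icc] at h
  push_cast at h
  refine le_trans (le_of_eq ?_) h
  refine Finset.sum_congr rfl fun k _ => ?_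
  push_cast
  rw [one_div]

theorem log3 : 1.097 ≤ Real.log 3 := by
  have h1 : Real.log ((2 : ℝ) ^ 19) ≤ Real.log ((3 : ℝ) ^ 12) :=
    Real.log_le_log (by norm_num) (by norm_num)
  rw [Real.log_pow, Real.log_pow] at h1
  have h2 := Real.log_two_gt_d9
  push_cast at h1
  linarith

end SumN2

open SumN2 in
/-- V6: the sum -/
theorem t_sum2 : S_sum2 := by
  intro n hn
  obtain ⟨K, hK⟩ : ∃ K : ℝ, K = 160 * Real.sqrt ((Nat.log 2 n + 1 : ℕ) : ℝ) := ⟨_, rfl⟩
  have hn0 : (0 : ℝ) < n := by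
    have : 0 < n := by omega
    exact_mod_cast this
  have hK0 : 0 ≤ K := by rw [hK]; positivity
  simp only [← hK]
  have h1 : ∑ z ∈ P n, (1 / (n : ℝ) + K / (z.2 : ℝ)) ≤
      ∑ z ∈ (Finset.Icc (1 : ℤ) n) ×ˢ (Finset.Icc (1 : ℤ) n), (1 / (n : ℝ) + K / (z.2 : ℝ)) := by
    unfold P
    refine Finset.sum_le_sum_of_subset_of_nonneg (Finset.filter_subset _ _) fun z hz _ => ?_
    have h2 := (Finset.mem_Icc.1 (Finset.mem_product.1 hz).2).1
    have h3 : (0 : ℝ) < (z.2 : ℝ) := by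
      have : (0 : ℤ) < z.2 := by omega
      exact_mod_cast this
    positivity
  refine h1.trans ?_
  rw [Finset.sum_product]
  simp only []
  rw [Finset.sum_const]
  have hcard : (Finset.Icc (1 : ℤ) n).card = n := by
    rw [Int.card_Icc]
    omega
  rw [hcard, nsmul_eq_mul, Finset.sum_add_distrib, Finset.sum_const, hcard, nsmul_eq_mul]
  have h2 : ∑ u ∈ Finset.Icc (1 : ℤ) n, K / (u : ℝ) =
      K * ∑ u ∈ Finset.Icc (1 : ℤ) n, 1 / (u : ℝ) := by
    rw [Finset.mul_sum]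
    exact Finset.sum_congr rfl fun u _ => by rw [mul_one_div]
  rw [h2, mul_one_div, div_self hn0.ne']
  have h3 := mul_le_mul_of_nonneg_left (harm n) hK0
  obtain ⟨L, hL⟩ : ∃ L : ℝ, L = Real.log n := ⟨_, rfl⟩
  rw [← hL] at h3 ⊢
  have hL1 : 1.097 ≤ L := by
    rw [hL]
    refine log3.trans (Real.log_le_log (by norm_num) ?_)
    exact_mod_cast hn
  have hL0 : 0 < L := by linarith
  have hl2 : (Nat.log 2 n : ℝ) ≤ 1.4428 * L := by
    have h4 := Real.natLog_le_logb n 2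
    rw [Real.logb] at h4
    push_cast at h4
    rw [← hL] at h4
    refine h4.trans ?_
    have h5 := Real.log_two_gt_d9
    rw [div_le_iff₀ (by linarith)]
    nlinarith
  obtain ⟨s, hs⟩ : ∃ s : ℝ, s = Real.sqrt L := ⟨_, rfl⟩
  have hs0 : 0 ≤ s := by rw [hs]; exact Real.sqrt_nonneg L
  have hss : s ^ 2 = L := by rw [hs]; exact Real.sq_sqrt hL0.le
  have hpow : L ^ ((3 : ℝ) / 2) = L * s := by
    rw [show (3 : ℝ) / 2 = 1 + 1 / 2 by norm_num, Real.rpow_add hL0, Real.rpow_one, hs,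
      Real.sqrt_eq_rpow]
  have hs1 : 1.047 ≤ s := by
    rw [hs]
    refine Real.le_sqrt_of_sq_le ?_
    norm_num
    linarith
  have hKL : K ≤ 160 * (1.5345 * s) := by
    rw [hK]
    refine mul_le_mul_of_nonneg_left ?_ (by norm_num)
    refine Real.sqrt_le_iff.mpr ⟨by positivity, ?_⟩
    rw [mul_pow, hss]
    push_cast
    linarith
  have hL2 : 1 + L ≤ 1.9116 * L := by linarith
  have h5 : K * (1 + L) ≤ 160 * (1.5345 * s) * (1.9116 * L) :=
    mul_le_mul hKL hL2 (by linarith) (by positivity)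
  have h6 : 1 ≤ L * s := by nlinarith
  have h7 : 1 + K * ∑ u ∈ Finset.Icc (1 : ℤ) n, 1 / (u : ℝ) ≤ 480 * (L * s) := by nlinarith
  rw [hpow]
  calc (n : ℝ) * (1 + K * ∑ u ∈ Finset.Icc (1 : ℤ) n, 1 / (u : ℝ)) ≤ n * (480 * (L * s)) :=
        mul_le_mul_of_nonneg_left h7 hn0.le
    _ = 480 * n * (L * s) := by ring

end Pool.Agent.H188.UC
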